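import Mathlib

set_option autoImplicit false
open MeasureTheory Filter Topology Finset
open scoped BoundedContinuousFunction

/-!
# Project BQ : MP_31db24_co (S07967), monochromatic shifted patterns `{b_i, b_i ^ 2 + b_j}`

Definitions and the statements of the independent parts.
-/

namespace Pool.Agent.W634.BQ

/-- the indicator function of a set of integers as a bounded function -/
noncomputable def ind (A : Set ℤ) : ℤ →ᵇ ℝ :=
  BoundedContinuousFunction.ofNormedAddCommGroupDiscrete (A.indicator fun _ => (1 : ℝ)) 1 (by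
    intro x
    by_cases h : x ∈ A <;> simp [h])

/-- shift by `k` : `(sh k f) n = f (n + k)` -/
def sh {β : Type} [PseudoMetricSpace β] (k : ℤ) (f : ℤ →ᵇ β) : ℤ →ᵇ β :=
  f.compContinuous ⟨fun n => n + k, continuous_of_discreteTopology⟩

/-- real part of a bounded complex function -/
noncomputable def cre (f : ℤ →ᵇ ℂ) : ℤ →ᵇ ℝ :=
  BoundedContinuousFunction.ofNormedAddCommGroupDiscrete (fun n => (f n).re) ‖f‖ (by
    intro x
    exact (Complex.abs_re_le_norm _).trans (f.norm_coe_le_norm x))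

/-- imaginary part of a bounded complex function -/
noncomputable def cim (f : ℤ →ᵇ ℂ) : ℤ →ᵇ ℝ :=
  BoundedContinuousFunction.ofNormedAddCommGroupDiscrete (fun n => (f n).im) ‖f‖ (by
    intro x
    exact (Complex.abs_im_le_norm _).trans (f.norm_coe_le_norm x))

/-- the character `n ↦ θ ^ n` -/
noncomputable def chr (θ : Circle) : ℤ →ᵇ ℂ :=
  BoundedContinuousFunction.ofNormedAddCommGroupDiscrete (fun n => ((θ ^ n : Circle) : ℂ)) 1 (by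
    intro x
    exact (Circle.norm_coe _).le)

/-- invariant means on `ℤ` -/
structure IsMean (m : (ℤ →ᵇ ℝ) →ₗ[ℝ] ℝ) : Prop where
  pos : ∀ f : ℤ →ᵇ ℝ, (∀ n, 0 ≤ f n) → 0 ≤ m f
  one : m 1 = 1
  inv : ∀ f, m (sh 1 f) = m f

/-- extremality : every invariant functional between `0` and `m` is a multiple of `m` -/
def Extr (m : (ℤ →ᵇ ℝ) →ₗ[ℝ] ℝ) : Prop :=
  ∀ m' : (ℤ →ᵇ ℝ) →ₗ[ℝ] ℝ, (∀ f : ℤ →ᵇ ℝ, (∀ n, 0 ≤ f n) → 0 ≤ m' f ∧ m' f ≤ m f) →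
    (∀ f, m' (sh 1 f) = m' f) → ∀ f, m' f = m' 1 * m f

/-- BQ-EXT : existence of extreme invariant means carried by a shift invariant set of
ultrafilters -/
def S_ext : Prop :=
  ∀ M : Set (Ultrafilter ℤ), M.Nonempty → (∀ u ∈ M, ∀ k : ℤ, u.map (fun n => n + k) ∈ M) →
    ∃ m : (ℤ →ᵇ ℝ) →ₗ[ℝ] ℝ, IsMean m ∧ Extr m ∧
      ∀ A : Set ℤ, (∀ u ∈ M, A ∉ u) → m (ind A) = 0

/-- BQ-GNS : the Hilbert space of an extreme invariant mean; its only eigenvectors are the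
multiples of the characters -/
def S_gns : Prop :=
  ∀ m : (ℤ →ᵇ ℝ) →ₗ[ℝ] ℝ, IsMean m → Extr m →
    ∃ (H : Type) (_ : NormedAddCommGroup H) (_ : InnerProductSpace ℂ H) (_ : CompleteSpace H)
      (U : H ≃ₗᵢ[ℂ] H) (ι : (ℤ →ᵇ ℂ) →ₗ[ℂ] H),
      DenseRange ι ∧
      (∀ f g : ℤ →ᵇ ℂ, inner ℂ (ι f) (ι g) =
        ((m (cre (star f * g)) : ℝ) : ℂ) + ((m (cim (star f * g)) : ℝ) : ℂ) * Complex.I) ∧
      (∀ f, U (ι f) = ι (sh 1 f)) ∧
      (∀ (θ : Circle) (v : H), U v = (θ : ℂ) • v → ∃ c : ℂ, v = c • ι (chr θ))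

/-- BQ-WM : vectors orthogonal to all eigenvectors are weakly mixing, uniformly in the
interval -/
def S_wm : Prop :=
  ∀ (H : Type) [NormedAddCommGroup H] [InnerProductSpace ℂ H] [CompleteSpace H]
    (U : H ≃ₗᵢ[ℂ] H) (f : H),
    (∀ (θ : Circle) (v : H), U v = (θ : ℂ) • v → inner ℂ v f = 0) →
    ∀ ε : ℝ, 0 < ε → ∃ L0 : ℕ, ∀ L : ℕ, L0 ≤ L → ∀ N : ℤ,
      ∑ n ∈ range L, ‖inner ℂ ((U ^ (N + n)) f) f‖ ≤ ε * L

/-- BQ-VDC : van der Corput along the squares -/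
def S_vdc : Prop :=
  ∀ (H : Type) [NormedAddCommGroup H] [InnerProductSpace ℂ H] [CompleteSpace H]
    (U : H ≃ₗᵢ[ℂ] H) (f h : H),
    (∀ (θ : Circle) (v : H), U v = (θ : ℂ) • v → inner ℂ v f = 0) →
    ∀ ε : ℝ, 0 < ε → ∃ L0 : ℕ, ∀ L : ℕ, L0 ≤ L → ∀ N : ℤ,
      ∑ n ∈ range L, ‖inner ℂ h ((U ^ ((N + n) ^ 2)) f)‖ ^ 2 ≤ ε * L

/-- BQ-REC : the orbit of `(0,0)` under `(x,y) ↦ (x+α, y+2x+α)` is uniformly recurrent, and its
closure carries a measure with first marginal Haar -/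
def S_rec : Prop :=
  ∀ (Z : Type) [AddCommGroup Z] [TopologicalSpace Z] [IsTopologicalAddGroup Z] [CompactSpace Z]
    [T2Space Z] [SecondCountableTopology Z] [MeasurableSpace Z] [BorelSpace Z]
    (μ : Measure Z) [IsProbabilityMeasure μ] [μ.IsAddHaarMeasure] (α : Z),
    DenseRange (fun n : ℤ => n • α) →
    ∃ lam : Measure (Z × Z), IsProbabilityMeasure lam ∧ lam.map Prod.fst = μ ∧
      (∀ O : Set (Z × Z), IsOpen O → (0, 0) ∈ O → 0 < lam O) ∧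
      (∀ O : Set (Z × Z), IsOpen O → 0 < lam O →
        ∃ N : ℕ, ∀ n : ℤ, ∃ t : ℕ, t < N ∧ ((n + t) • α, ((n + t) ^ 2) • α) ∈ O)

/-- BQ-CL : the configuration lemma on a compact monothetic group -/
def S_cl : Prop :=
  ∀ (Z : Type) [AddCommGroup Z] [TopologicalSpace Z] [IsTopologicalAddGroup Z] [CompactSpace Z]
    [T2Space Z] [SecondCountableTopology Z] [MeasurableSpace Z] [BorelSpace Z]
    (μ : Measure Z) [IsProbabilityMeasure μ] [μ.IsAddHaarMeasure] (α : Z),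
    DenseRange (fun n : ℤ => n • α) →
    ∀ (lam : Measure (Z × Z)) [IsProbabilityMeasure lam], lam.map Prod.fst = μ →
    ∀ (E : Type) [Fintype E] [DecidableEq E] (κ : E → ℤ), Function.Injective κ →
    ∀ (u : E → Z) (Ω : Set Z), IsOpen Ω →
    ∀ F : E → Z → ℝ, (∀ e, Measurable (F e)) → (∀ e z, 0 ≤ F e z ∧ F e z ≤ 1) →
    (∀ e, ∀ ψ : C(Z, ℝ), (∀ z, 0 ≤ ψ z) → (∃ z, ψ z ≠ 0) → (∀ z, z ∉ Ω → ψ z = 0) →
      0 < ∫ z, ψ z * F e z ∂μ) →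
    ∀ φ : C(Z, ℝ), (∀ z, 0 ≤ φ z) →
    ∀ (z0 : Z) (p0 : Z × Z), 0 < φ z0 →
      (∀ e, z0 + u e + p0.2 + (2 * κ e) • p0.1 + (κ e ^ 2) • α ∈ Ω) →
      (∀ O : Set (Z × Z), IsOpen O → p0 ∈ O → 0 < lam O) →
    ∃ O : Set (Z × Z), IsOpen O ∧ 0 < lam O ∧ ∃ ε : ℝ, 0 < ε ∧ ∀ p ∈ O,
      ε ≤ ∫ z, φ z * ∏ e, F e (z + u e + p.2 + (2 * κ e) • p.1 + (κ e ^ 2) • α) ∂μ

/-- the function `n ↦ φ (n α)` -/
def pull {Z : Type} [AddCommGroup Z] [TopologicalSpace Z] [CompactSpace Z] (α : Z)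
    (φ : C(Z, ℝ)) : ℤ →ᵇ ℝ :=
  (BoundedContinuousFunction.mkOfCompact φ).compContinuous
    ⟨fun n => n • α, continuous_of_discreteTopology⟩

/-- a compact monothetic metrizable group with its Haar measure -/
structure CG where
  Z : Type
  [i1 : AddCommGroup Z]
  [i2 : TopologicalSpace Z]
  [i3 : IsTopologicalAddGroup Z]
  [i4 : CompactSpace Z]
  [i5 : T2Space Z]
  [i6 : SecondCountableTopology Z]
  [i7 : MeasurableSpace Z]
  [i8 : BorelSpace Z]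
  μ : Measure Z
  [i9 : IsProbabilityMeasure μ]
  [i10 : μ.IsAddHaarMeasure]
  α : Z
  dense : DenseRange (fun n : ℤ => n • α)

attribute [instance] CG.i1 CG.i2 CG.i3 CG.i4 CG.i5 CG.i6 CG.i7 CG.i8 CG.i9 CG.i10

/-- BQ-KEY : Kronecker factor of an extreme mean; correlations along squares are controlled by
the Kronecker factor -/
def S_key : Prop :=
  ∀ m : (ℤ →ᵇ ℝ) →ₗ[ℝ] ℝ, IsMean m → Extr m → ∀ (r : ℕ) (C : Fin r → Set ℤ),
    ∃ (G : CG) (g : Fin r → G.Z → ℝ), (∀ i, Measurable (g i)) ∧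
      (∀ i z, 0 ≤ g i z ∧ g i z ≤ 1) ∧
      (∀ i (φ : C(G.Z, ℝ)), m (pull G.α φ * ind (C i)) = ∫ z, φ z * g i z ∂G.μ) ∧
      ∀ A : Set ℤ, ∃ fA : G.Z → ℝ, Measurable fA ∧ (∀ z, 0 ≤ fA z ∧ fA z ≤ 1) ∧
        (∀ φ : C(G.Z, ℝ), m (pull G.α φ * ind A) = ∫ z, φ z * fA z ∂G.μ) ∧
        ∀ (i : Fin r) (s : ℤ) (ε : ℝ), 0 < ε → ∃ L0 : ℕ, ∀ L : ℕ, L0 ≤ L → ∀ N : ℤ,
          ∑ n ∈ range L, (m (ind A * sh (s + (N + n) ^ 2) (ind (C i))) -
            ∫ z, fA z * g i (z + (s + (N + n) ^ 2) • G.α) ∂G.μ) ^ 2 ≤ ε * L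

end Pool.Agent.W634.BQ
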