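import Mathlib
import Pool.Agent.W634.BQ.Stms

set_option autoImplicit false
open MeasureTheory Filter Topology Finset
open scoped BoundedContinuousFunction

namespace Pool.Agent.W634.BQ

/-- BQ-GRP : the compact group with a prescribed countable group of characters -/
def S_grp : Prop :=
  ∀ Λ : Subgroup Circle, (Λ : Set Circle).Countable →
    ∃ (G : CG) (χ : Λ → C(G.Z, ℂ)),
      (∀ θ z w, χ θ (z + w) = χ θ z * χ θ w) ∧
      (∀ θ, χ θ G.α = ((θ : Circle) : ℂ)) ∧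
      (∀ θ θ' z, χ (θ * θ') z = χ θ z * χ θ' z) ∧
      (∀ θ z, χ θ⁻¹ z = (starRingEnd ℂ) (χ θ z)) ∧
      (∀ θ z, ‖χ θ z‖ = 1) ∧
      (∀ θ, θ ≠ 1 → ∫ z, χ θ z ∂G.μ = 0) ∧
      ∀ (φ : C(G.Z, ℂ)) (ε : ℝ), 0 < ε → ∃ a : Λ →₀ ℂ, ∀ z,
        ‖φ z - a.sum (fun θ c => c * χ θ z)‖ ≤ ε

end Pool.Agent.W634.BQ
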