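import Mathlib
import Pool.Agent.W634.BQ.Stms2

set_option autoImplicit false
open MeasureTheory Filter Topology Finset
open scoped BoundedContinuousFunction

namespace Pool.Agent.W634.BQ

/-- BQ-KEY, final form: `S_key` with the additional clause that `m` restricts to the Haar
integral on the functions `n ↦ φ (n α)` -/
def S_key2 : Prop :=
  ∀ m : (ℤ →ᵇ ℝ) →ₗ[ℝ] ℝ, IsMean m → Extr m → ∀ (r : ℕ) (C : Fin r → Set ℤ),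
    ∃ (G : CG) (g : Fin r → G.Z → ℝ),
      (∀ φ : C(G.Z, ℝ), m (pull G.α φ) = ∫ z, φ z ∂G.μ) ∧
      (∀ i, Measurable (g i)) ∧
      (∀ i z, 0 ≤ g i z ∧ g i z ≤ 1) ∧
      (∀ i (φ : C(G.Z, ℝ)), m (pull G.α φ * ind (C i)) = ∫ z, φ z * g i z ∂G.μ) ∧
      ∀ A : Set ℤ, ∃ fA : G.Z → ℝ, Measurable fA ∧ (∀ z, 0 ≤ fA z ∧ fA z ≤ 1) ∧
        (∀ φ : C(G.Z, ℝ), m (pull G.α φ * ind A) = ∫ z, φ z * fA z ∂G.μ) ∧
        ∀ (i : Fin r) (s : ℤ) (ε : ℝ), 0 < ε → ∃ L0 : ℕ, ∀ L : ℕ, L0 ≤ L → ∀ N : ℤ,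
          ∑ n ∈ range L, (m (ind A * sh (s + (N + n) ^ 2) (ind (C i))) -
            ∫ z, fA z * g i (z + (s + (N + n) ^ 2) • G.α) ∂G.μ) ^ 2 ≤ ε * L

end Pool.Agent.W634.BQ
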