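import Mathlib
import Pool.Agent.W634.BQ.Stms3
import Pool.Agent.W932.BQ.Key

/-! adapted from `Pool.Agent.W932.BQ.Key.key` of helper932: the same statement with one more clause -/

set_option autoImplicit false
open MeasureTheory Filter Topology Finset
open scoped BoundedContinuousFunction

namespace Pool.Agent.W634.BQ
open Pool.Agent.W932.BQ

theorem key2 : S_gns → S_vdc → S_grp → S_key2 := by
  intro hgns hvdc hgrp m hm hme r C
  obtain ⟨H, i1, i2, i3, U, ι, -, hinn, hsh, heig⟩ := hgns m hm hme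
  have hg : Gns m U ι := ⟨hm, hinn, hsh, heig⟩
  set S : Set Circle := ⋃ i : Fin r, {θ | inner ℂ (ι (chr θ)) (ι (cx (ind (C i)))) ≠ 0} with hS
  have hScount : S.Countable := by
    apply Set.countable_iUnion
    intro i
    have h1 := hg.orth.inner_products_summable (x := ι (cx (ind (C i))))
    have h2 := h1.countable_support
    refine h2.mono ?_
    intro θ hθ
    simp only [Function.mem_support]
    exact pow_ne_zero 2 (norm_ne_zero_iff.mpr hθ)
  obtain ⟨G, χ, c1, c2, c3, -, c5, c6, c7⟩ := hgrp (Subgroup.closure S) (countable_closure hScount)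
  have hc : Chars G (Subgroup.closure S) χ := ⟨c1, c2, c3, c5, c6, c7⟩
  obtain ⟨J, hJ, hJi⟩ := exists_J hg hc
  choose g hg1 hg2 hg3 using fun i => exists_dens hg hc (C i)
  have hgd : ∀ i, Den m G (C i) (g i) := fun i => ⟨hg1 i, hg2 i, hg3 i⟩
  refine ⟨G, g, fun φ => mean_real hg hc φ, hg1, hg2, hg3, ?_⟩
  intro A
  obtain ⟨fA, hf1, hf2, hf3⟩ := exists_dens hg hc A
  have hf : Den m G A fA := ⟨hf1, hf2, hf3⟩
  refine ⟨fA, hf1, hf2, hf3, ?_⟩
  intro i s ε hε
  set f : H := ι (cx (ind (C i))) - J (hgd i).lp with hfdef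
  have horth : ∀ (θ : Circle) (v : H), U v = (θ : ℂ) • v → inner ℂ v f = 0 :=
    orth_eig hg hc hJ hJi (hgd i) (fun θ hθ => Subgroup.subset_closure
      (Set.mem_iUnion.mpr ⟨i, hθ⟩))
  have horth' : ∀ (θ : Circle) (v : H), U v = (θ : ℂ) • v → inner ℂ v ((U ^ s) f) = 0 := by
    intro θ v hv
    have e1 : U ((U ^ (-s)) v) = (θ : ℂ) • ((U ^ (-s)) v) := by
      have : U ((U ^ (-s)) v) = (U ^ (-s)) (U v) := by
        show (U * U ^ (-s)) v = (U ^ (-s) * U) v
        rw [← zpow_one_add, ← zpow_add_one, add_comm]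
      rw [this, hv, map_smul]
    have e2 : v = (U ^ s) ((U ^ (-s)) v) := by
      show v = (U ^ s * U ^ (-s)) v
      rw [← zpow_add, add_neg_cancel, zpow_zero]
      rfl
    rw [e2, LinearIsometryEquiv.inner_map_map]
    exact horth θ _ e1
  obtain ⟨L0, hL0⟩ := hvdc H U ((U ^ s) f) (ι (cx (ind A))) horth' ε hε
  refine ⟨L0, fun L hL N => ?_⟩
  refine le_trans (le_of_eq ?_) (hL0 L hL N)
  apply Finset.sum_congr rfl
  intro n _
  have e3 : (U ^ ((N + n) ^ 2)) ((U ^ s) f) = (U ^ (s + (N + n) ^ 2)) f := by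
    show (U ^ ((N + n) ^ 2) * U ^ s) f = _
    rw [← zpow_add, add_comm]
  rw [e3, hfdef, corr hg hJ hf (hgd i), Complex.norm_real, Real.norm_eq_abs, sq_abs]

end Pool.Agent.W634.BQ
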