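import Mathlib

set_option autoImplicit false
open Filter Topology Finset

namespace Pool.Agent.W634.BQ

/-- proper shift invariant filters on `ℤ` living at `+∞` -/
structure Good (F : Filter ℤ) : Prop where
  ne : F.NeBot
  top : F ≤ atTop
  inv : ∀ (k : ℤ) (A : Set ℤ), A ∈ F → {n | n + k ∈ A} ∈ F

/-- maximal ones (correspond to minimal sets of ultrafilters) -/
structure Mx (F : Filter ℤ) : Prop extends Good F where
  max : ∀ F' : Filter ℤ, Good F' → F' ≤ F → F' = F

theorem good_atTop : Good (atTop : Filter ℤ) := by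
  refine ⟨inferInstance, le_rfl, fun k A hA => ?_⟩
  exact (tendsto_atTop_add_const_right atTop k tendsto_id) hA

theorem exists_mx : ∃ F : Filter ℤ, Mx F := by
  have h := zorn_le_nonempty₀ (α := (Filter ℤ)ᵒᵈ) {F | Good (OrderDual.ofDual F)} ?_
    (OrderDual.toDual atTop) good_atTop
  · obtain ⟨F, -, hF⟩ := h
    refine ⟨OrderDual.ofDual F, hF.1, fun F' hF' hle => ?_⟩
    have h1 : F ≤ OrderDual.toDual F' := hle
    have h2 := hF.2 (y := OrderDual.toDual F') hF' h1
    exact le_antisymm hle h2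
  · intro c hc hch y hy
    set s : Set (Filter ℤ) := {F | OrderDual.toDual F ∈ c} with hs
    have hd : DirectedOn (· ≥ ·) s := by
      intro a ha b hb
      rcases hch.total ha hb with h | h
      · exact ⟨b, hb, h, le_refl _⟩
      · exact ⟨a, ha, le_refl _, h⟩
    have hne : s.Nonempty := ⟨OrderDual.ofDual y, hy⟩
    have hmem : ∀ A : Set ℤ, A ∈ sInf s ↔ ∃ F ∈ s, A ∈ F := by
      intro A
      rw [sInf_eq_iInf]
      exact Filter.mem_biInf_of_directed (f := fun F => F) hd hne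
    refine ⟨OrderDual.toDual (sInf s), ?_, fun z hz => ?_⟩
    · refine ⟨?_, ?_, ?_⟩
      · refine Filter.neBot_iff.2 fun hbot => ?_
        have : (∅ : Set ℤ) ∈ sInf s := by
          have h3 : (sInf s) = ⊥ := hbot
          rw [h3]; exact Filter.mem_bot
        obtain ⟨F, hF, hF'⟩ := (hmem _).1 this
        exact (hc hF).ne.ne (Filter.empty_mem_iff_bot.1 hF')
      · exact le_trans (show sInf s ≤ OrderDual.ofDual y from sInf_le hy) (hc hy).top
      · intro k A hA
        obtain ⟨F, hF, hF'⟩ := (hmem _).1 hA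
        exact (hmem _).2 ⟨F, hF, (hc hF).inv k A hF'⟩
    · show sInf s ≤ OrderDual.ofDual z
      exact sInf_le hz

variable {F : Filter ℤ}

/-- large sets are syndetic -/
theorem Mx.synd (hF : Mx F) {A : Set ℤ} (hA : Aᶜ ∉ F) :
    ∃ H : Finset ℤ, {n | ∃ h ∈ H, n + h ∈ A} ∈ F := by
  by_contra hcon
  push Not at hcon
  let F' : Filter ℤ :=
    { sets := {B | ∃ H : Finset ℤ, {n | n ∈ B ∨ ∃ h ∈ H, n + h ∈ A} ∈ F}
      univ_sets := ⟨∅, by simp⟩
      sets_of_superset := by
        rintro B C ⟨H, hH⟩ hBC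
        refine ⟨H, mem_of_superset hH ?_⟩
        rintro n (h | h)
        · exact Or.inl (hBC h)
        · exact Or.inr h
      inter_sets := by
        classical
        rintro B C ⟨H, hH⟩ ⟨H', hH'⟩
        refine ⟨H ∪ H', mem_of_superset (inter_mem hH hH') ?_⟩
        rintro n ⟨h1, h2⟩
        rcases h1 with h1 | ⟨h, hh, h1⟩
        · rcases h2 with h2 | ⟨h, hh, h2⟩
          · exact Or.inl ⟨h1, h2⟩
          · exact Or.inr ⟨h, Finset.mem_union_right _ hh, h2⟩
        · exact Or.inr ⟨h, Finset.mem_union_left _ hh, h1⟩ }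
  have hmem : ∀ B : Set ℤ, B ∈ F' ↔ ∃ H : Finset ℤ, {n | n ∈ B ∨ ∃ h ∈ H, n + h ∈ A} ∈ F :=
    fun B => Iff.rfl
  have hle : F' ≤ F := by
    intro B hB
    exact (hmem B).2 ⟨∅, by simpa using hB⟩
  have hg : Good F' := by
    refine ⟨?_, hle.trans hF.top, ?_⟩
    · refine Filter.neBot_iff.2 fun hbot => ?_
      have h1 : (∅ : Set ℤ) ∈ F' := by rw [hbot]; exact Filter.mem_bot
      obtain ⟨H, hH⟩ := (hmem _).1 h1
      refine hcon H (mem_of_superset hH ?_)
      rintro n (h | h)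
      · exact h.elim
      · exact h
    · classical
      intro k B hB
      obtain ⟨H, hH⟩ := (hmem _).1 hB
      refine (hmem _).2 ⟨H.image (fun h => k + h), mem_of_superset (hF.inv k _ hH) ?_⟩
      rintro n (h | ⟨h, hh, h1⟩)
      · exact Or.inl h
      · exact Or.inr ⟨k + h, Finset.mem_image_of_mem _ hh, by rwa [← add_assoc]⟩
  have heq := hF.max F' hg hle
  apply hA
  rw [← heq]
  refine (hmem _).2 ⟨{0}, Filter.univ_mem' ?_⟩
  intro n
  by_cases h : n ∈ A
  · exact Or.inr ⟨0, by simp, by simpa using h⟩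
  · exact Or.inl h

/-- thick sets contain long intervals far away -/
theorem Good.interval (hF : Good F) {G : Set ℤ} (hG : G ∈ F) (L : ℕ) (N0 : ℤ) :
    ∃ N : ℤ, N0 ≤ N ∧ ∀ j : ℕ, j < L → N + j ∈ G := by
  have h1 : (⋂ j ∈ Finset.range L, {n : ℤ | n + (j : ℤ) ∈ G}) ∈ F :=
    (Filter.biInter_finset_mem _).2 fun j _ => hF.inv j G hG
  have h2 : Set.Ici N0 ∈ F := hF.top (Ici_mem_atTop N0)
  obtain ⟨N, hN1, hN2⟩ := (haveI := hF.ne; Filter.nonempty_of_mem (inter_mem h1 h2))
  refine ⟨N, hN2, fun j hj => ?_⟩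
  have := Set.mem_iInter₂.1 hN1 j (Finset.mem_range.2 hj)
  exact this

/-- partition regularity -/
theorem part (F : Filter ℤ) {ι : Type} [Finite ι] (A : Set ℤ) (hA : Aᶜ ∉ F) (f : ℤ → ι) :
    ∃ i, {n | n ∈ A ∧ f n = i}ᶜ ∉ F := by
  by_contra hcon
  push Not at hcon
  apply hA
  have h1 : (⋂ i, {n | n ∈ A ∧ f n = i}ᶜ) ∈ F := (Filter.iInter_mem).2 hcon
  refine mem_of_superset h1 fun n hn hnA => ?_
  exact Set.mem_iInter.1 hn (f n) ⟨hnA, rfl⟩

end Pool.Agent.W634.BQ
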