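import Mathlib
import Pool.Agent.W634.BQ.Stms
import Pool.Agent.W634.BQ.Filt

set_option autoImplicit false
open MeasureTheory Filter Topology Finset
open scoped BoundedContinuousFunction

namespace Pool.Agent.W634.BQ

theorem ind_apply (A : Set ℤ) (n : ℤ) : ind A n = A.indicator (fun _ => (1 : ℝ)) n := rfl

theorem ind_mem {A : Set ℤ} {n : ℤ} (h : n ∈ A) : ind A n = 1 := by
  rw [ind_apply, Set.indicator_of_mem h]

theorem ind_notMem {A : Set ℤ} {n : ℤ} (h : n ∉ A) : ind A n = 0 := by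
  rw [ind_apply, Set.indicator_of_notMem h]

theorem ind_nonneg (A : Set ℤ) (n : ℤ) : 0 ≤ ind A n := by
  rw [ind_apply]; exact Set.indicator_nonneg (fun _ _ => zero_le_one) n

theorem sh_apply {β : Type} [PseudoMetricSpace β] (k : ℤ) (f : ℤ →ᵇ β) (n : ℤ) :
    sh k f n = f (n + k) := rfl

theorem pull_apply {Z : Type} [AddCommGroup Z] [TopologicalSpace Z] [CompactSpace Z] (α : Z)
    (φ : C(Z, ℝ)) (n : ℤ) : pull α φ n = φ (n • α) := rfl

variable {m : (ℤ →ᵇ ℝ) →ₗ[ℝ] ℝ}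

theorem IsMean.mono (hm : IsMean m) {f g : ℤ →ᵇ ℝ} (h : ∀ n, f n ≤ g n) : m f ≤ m g := by
  have h1 := hm.pos (g - f) (fun n => by
    rw [BoundedContinuousFunction.sub_apply]; exact sub_nonneg.2 (h n))
  rw [map_sub] at h1
  linarith

theorem IsMean.shift (hm : IsMean m) (k : ℤ) (f : ℤ →ᵇ ℝ) : m (sh k f) = m f := by
  have hadd : ∀ (a b : ℤ) (f : ℤ →ᵇ ℝ), sh a (sh b f) = sh (a + b) f := by
    intro a b f
    ext n
    simp only [sh_apply, add_assoc]
  have h0 : ∀ f : ℤ →ᵇ ℝ, sh 0 f = f := by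
    intro f; ext n; simp [sh_apply]
  induction k using Int.induction_on with
  | zero => rw [h0]
  | succ i ih =>
    rw [← ih, ← hm.inv (sh i f), hadd]
    congr 2
    ring
  | pred i ih =>
    rw [← ih, ← hm.inv (sh (-(i : ℤ) - 1) f), hadd]
    congr 2
    ring

theorem IsMean.eq_zero_of_le (hm : IsMean m) {f g : ℤ →ᵇ ℝ} (h0 : ∀ n, 0 ≤ f n)
    (h : ∀ n, f n ≤ g n) (hg : m g = 0) : m f = 0 :=
  le_antisymm ((hm.mono h).trans hg.le) (hm.pos f h0)

/-- restricting to a set of full measure -/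
theorem IsMean.mul_full (hm : IsMean m) {G : Set ℤ} (hG : m (ind Gᶜ) = 0) {f : ℤ →ᵇ ℝ}
    (hf : ∀ n, 0 ≤ f n) : m f = m (f * ind G) := by
  have h1 : f = f * ind G + f * ind Gᶜ := by
    ext n
    rw [BoundedContinuousFunction.add_apply, BoundedContinuousFunction.mul_apply,
      BoundedContinuousFunction.mul_apply]
    by_cases h : n ∈ G
    · rw [ind_mem h, ind_notMem (by simpa using h)]; ring
    · rw [ind_notMem h, ind_mem (by simpa using h)]; ring
  have h2 : m (f * ind Gᶜ) = 0 := by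
    refine hm.eq_zero_of_le (g := ‖f‖ • ind Gᶜ) ?_ ?_ (by rw [map_smul, hG, smul_zero])
    · intro n
      rw [BoundedContinuousFunction.mul_apply]
      exact mul_nonneg (hf n) (ind_nonneg _ n)
    · intro n
      rw [BoundedContinuousFunction.mul_apply, BoundedContinuousFunction.smul_apply, smul_eq_mul]
      exact mul_le_mul_of_nonneg_right ((le_abs_self _).trans (f.norm_coe_le_norm n))
        (ind_nonneg _ n)
  conv_lhs => rw [h1]
  rw [map_add, h2, add_zero]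

/-- the set of ultrafilters finer than `F` -/
def Mset (F : Filter ℤ) : Set (Ultrafilter ℤ) := {u | (u : Filter ℤ) ≤ F}

theorem exists_mean (hext : S_ext) {F : Filter ℤ} (hF : Good F) :
    ∃ m : (ℤ →ᵇ ℝ) →ₗ[ℝ] ℝ, IsMean m ∧ Extr m ∧ ∀ A : Set ℤ, Aᶜ ∈ F → m (ind A) = 0 := by
  have := hF.ne
  obtain ⟨m, h1, h2, h3⟩ := hext (Mset F) ⟨Ultrafilter.of F, Ultrafilter.of_le F⟩ (by
    intro u hu k A hA
    have h1 : {n | n + k ∈ A} ∈ (u : Filter ℤ) := hu (hF.inv k A hA)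
    exact h1)
  refine ⟨m, h1, h2, fun A hA => h3 A fun u hu hAu => ?_⟩
  have h4 : Aᶜ ∈ (u : Filter ℤ) := hu hA
  exact (Ultrafilter.compl_mem_iff_notMem.1 h4) hAu

end Pool.Agent.W634.BQ
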