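import Mathlib
import Pool.Agent.W634.BQ.Stms
import Pool.Agent.W634.BQ.Mean

set_option autoImplicit false
open MeasureTheory Filter Topology Finset
open scoped BoundedContinuousFunction

namespace Pool.Agent.W634.BQ

section
variable {Z : Type} [AddCommGroup Z] [TopologicalSpace Z] [IsTopologicalAddGroup Z]
  [CompactSpace Z] [T2Space Z] [SecondCountableTopology Z] [MeasurableSpace Z] [BorelSpace Z]
  {μ : Measure Z} [IsProbabilityMeasure μ]

theorem int_cont (ψ : C(Z, ℝ)) {g : Z → ℝ} (hg : Measurable g) (hb : ∀ z, 0 ≤ g z ∧ g z ≤ 1) :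
    Integrable (fun z => ψ z * g z) μ := by
  refine Integrable.mono' (integrable_const ‖ψ‖)
    ((map_continuous ψ).measurable.mul hg).aestronglyMeasurable (Eventually.of_forall fun z => ?_)
  rw [norm_mul]
  have h1 := ψ.norm_coe_le_norm z
  have h2 : ‖g z‖ ≤ 1 := by rw [Real.norm_eq_abs, abs_of_nonneg (hb z).1]; exact (hb z).2
  calc ‖ψ z‖ * ‖g z‖ ≤ ‖ψ‖ * 1 := mul_le_mul h1 h2 (norm_nonneg _) (norm_nonneg _)
    _ = ‖ψ‖ := mul_one _

/-- testing with continuous functions suffices -/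
theorem test {u : Z → ℝ} (hu : Measurable u) {C : ℝ} (hC : ∀ z, |u z| ≤ C)
    (h : ∀ ψ : C(Z, ℝ), (∀ z, 0 ≤ ψ z) → 0 ≤ ∫ z, ψ z * u z ∂μ)
    {v : Z → ℝ} (hv : Integrable v μ) (hv0 : ∀ z, 0 ≤ v z) : 0 ≤ ∫ z, v z * u z ∂μ := by
  have hC0 : 0 ≤ C := by
    have : Nonempty Z := ⟨0⟩
    exact (abs_nonneg _).trans (hC 0)
  have hvu : Integrable (fun z => v z * u z) μ := by
    refine Integrable.mono' (hv.norm.mul_const C)
      (hv.aestronglyMeasurable.mul hu.aestronglyMeasurable) (Eventually.of_forall fun z => ?_)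
    rw [norm_mul]
    exact mul_le_mul_of_nonneg_left (hC z) (norm_nonneg _)
  refine le_of_forall_pos_le_add fun ε hε => ?_
  set δ : ℝ := ε / (C + 1) with hδ
  have hδ0 : 0 < δ := by positivity
  obtain ⟨g, hg1, hg2⟩ := hv.exists_boundedContinuous_integral_sub_le hδ0
  let ψ : C(Z, ℝ) := ⟨fun z => max (g z) 0, g.continuous.max continuous_const⟩
  have hψ : ∀ z, ψ z = max (g z) 0 := fun z => rfl
  have h1 := h ψ fun z => by rw [hψ]; exact le_max_right _ _
  have hψi : Integrable (fun z => ψ z) μ :=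
    (map_continuous ψ).integrable_of_hasCompactSupport (HasCompactSupport.of_compactSpace _)
  have hψu : Integrable (fun z => ψ z * u z) μ := by
    refine Integrable.mono' (hψi.norm.mul_const C)
      (hψi.aestronglyMeasurable.mul hu.aestronglyMeasurable) (Eventually.of_forall fun z => ?_)
    rw [norm_mul]
    exact mul_le_mul_of_nonneg_left (hC z) (norm_nonneg _)
  have h2 : ∀ z, |ψ z - v z| ≤ |v z - g z| := by
    intro z
    rw [hψ]
    have h3 : |max (g z) 0 - max (v z) 0| ≤ |g z - v z| := by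
      have := abs_max_sub_max_le_abs (g z) (v z) 0
      exact this
    rw [max_eq_left (hv0 z)] at h3
    rw [abs_sub_comm (v z)]
    exact h3
  have h3 : ∫ z, ψ z * u z ∂μ - ∫ z, v z * u z ∂μ ≤ ε := by
    rw [← integral_sub hψu hvu]
    calc ∫ z, (ψ z * u z - v z * u z) ∂μ ≤ ∫ z, ‖v z - g z‖ * C ∂μ := by
          refine integral_mono (hψu.sub hvu) ((hv.sub hg2).norm.mul_const C) fun z => ?_
          show ψ z * u z - v z * u z ≤ ‖v z - g z‖ * C
          calc ψ z * u z - v z * u z ≤ |(ψ z - v z) * u z| := by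
                rw [sub_mul]; exact le_abs_self _
            _ = |ψ z - v z| * |u z| := abs_mul _ _
            _ ≤ |v z - g z| * C := mul_le_mul (h2 z) (hC z) (abs_nonneg _) (abs_nonneg _)
      _ = (∫ z, ‖v z - g z‖ ∂μ) * C := integral_mul_const _ _
      _ ≤ δ * C := mul_le_mul_of_nonneg_right hg1 hC0
      _ ≤ ε := by
          rw [hδ, div_mul_eq_mul_div, div_le_iff₀ (by positivity)]
          nlinarith
  linarith

/-- a region on which every function `g i` has full support or vanishes -/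
theorem exists_region [μ.IsOpenPosMeasure] {r : ℕ} (g : Fin r → Z → ℝ) (hg : ∀ i, Measurable (g i))
    (hb : ∀ i z, 0 ≤ g i z ∧ g i z ≤ 1) :
    ∃ Ω : Set Z, IsOpen Ω ∧ Ω.Nonempty ∧ ∀ i,
      (∀ ψ : C(Z, ℝ), (∀ z, 0 ≤ ψ z) → (∃ z, ψ z ≠ 0) → (∀ z, z ∉ Ω → ψ z = 0) →
        0 < ∫ z, ψ z * g i z ∂μ) ∨
      (∀ ψ : C(Z, ℝ), (∀ z, 0 ≤ ψ z) → (∀ z, z ∉ Ω → ψ z = 0) →
        ∫ z, ψ z * g i z ∂μ = 0) := by
  classical
  let Supp : Fin r → Set Z → Prop := fun i O => ∃ ψ : C(Z, ℝ), (∀ z, 0 ≤ ψ z) ∧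
    (∀ z, z ∉ O → ψ z = 0) ∧ 0 < ∫ z, ψ z * g i z ∂μ
  let I : Set Z → Finset (Fin r) := fun O => Finset.univ.filter fun i => Supp i O
  have hex : ∃ k : ℕ, ∃ O : Set Z, IsOpen O ∧ O.Nonempty ∧ (I O).card = k :=
    ⟨_, Set.univ, isOpen_univ, ⟨0, trivial⟩, rfl⟩
  obtain ⟨Ω, hΩ, hne, hcard⟩ := Nat.find_spec hex
  have hmin : ∀ O : Set Z, IsOpen O → O.Nonempty → (I Ω).card ≤ (I O).card := by
    intro O hO hOne
    rw [hcard]
    exact Nat.find_min' hex ⟨O, hO, hOne, rfl⟩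
  have hnn : ∀ i (ψ : C(Z, ℝ)), (∀ z, 0 ≤ ψ z) → 0 ≤ ∫ z, ψ z * g i z ∂μ := fun i ψ hψ =>
    integral_nonneg fun z => mul_nonneg (hψ z) (hb i z).1
  refine ⟨Ω, hΩ, hne, fun i => ?_⟩
  by_cases hi : Supp i Ω
  · left
    intro ψ hψ0 hψne hψΩ
    set O' : Set Z := {z | ψ z ≠ 0} with hO'
    have hO'o : IsOpen O' := isOpen_ne_fun (map_continuous ψ) continuous_const
    have hsub : O' ⊆ Ω := fun z hz => by
      by_contra h
      exact hz (hψΩ z h)
    have hmono : I O' ⊆ I Ω := by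
      intro j hj
      rw [Finset.mem_filter] at hj ⊢
      obtain ⟨ψ', h1, h2, h3⟩ := hj.2
      exact ⟨Finset.mem_univ _, ψ', h1, fun z hz => h2 z fun h => hz (hsub h), h3⟩
    have heq := Finset.eq_of_subset_of_card_le hmono (hmin O' hO'o hψne)
    have hi' : i ∈ I O' := by
      rw [heq]
      exact Finset.mem_filter.2 ⟨Finset.mem_univ _, hi⟩
    obtain ⟨ψ', h1, h2, h3⟩ := (Finset.mem_filter.1 hi').2
    by_contra hcon
    have h0 : ∫ z, ψ z * g i z ∂μ = 0 := le_antisymm (not_lt.1 hcon) (hnn i ψ hψ0)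
    rw [integral_eq_zero_iff_of_nonneg (fun z => mul_nonneg (hψ0 z) (hb i z).1)
      (int_cont ψ (hg i) (hb i))] at h0
    have h4 : ∫ z, ψ' z * g i z ∂μ = 0 := by
      rw [integral_eq_zero_iff_of_nonneg (fun z => mul_nonneg (h1 z) (hb i z).1)
        (int_cont ψ' (hg i) (hb i))]
      filter_upwards [h0] with z hz
      by_cases hzO : ψ z = 0
      · have : ψ' z = 0 := h2 z fun h => h hzO
        simp [this]
      · have : g i z = 0 := by
          rcases mul_eq_zero.1 hz with h | h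
          · exact absurd h hzO
          · exact h
        simp [this]
    linarith
  · right
    intro ψ hψ0 hψΩ
    by_contra hcon
    exact hi ⟨ψ, hψ0, hψΩ, lt_of_le_of_ne (hnn i ψ hψ0) (Ne.symm hcon)⟩

/-- finitely many translates of an open set cover -/
theorem exists_cover {α : Z} (hα : DenseRange (fun n : ℤ => n • α)) {O : Set Z} (hO : IsOpen O)
    (hne : O.Nonempty) : ∃ F1 : Finset ℤ, ∀ z : Z, ∃ s ∈ F1, z + s • α ∈ O := by
  have hU : ∀ s : ℤ, IsOpen {z : Z | z + s • α ∈ O} := fun s =>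
    hO.preimage (continuous_id.add continuous_const)
  have hcov : (Set.univ : Set Z) ⊆ ⋃ s : ℤ, {z : Z | z + s • α ∈ O} := by
    intro z _
    have h1 : IsOpen {x : Z | z + x ∈ O} := hO.preimage (continuous_const.add continuous_id)
    have h2 : {x : Z | z + x ∈ O}.Nonempty := by
      obtain ⟨o, ho⟩ := hne
      exact ⟨o - z, by show z + (o - z) ∈ O; rwa [add_sub_cancel]⟩
    obtain ⟨s, hs⟩ := hα.exists_mem_open h1 h2
    exact Set.mem_iUnion.2 ⟨s, hs⟩
  obtain ⟨F1, hF1⟩ := isCompact_univ.elim_finite_subcover _ hU hcov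
  refine ⟨F1, fun z => ?_⟩
  have := hF1 (Set.mem_univ z)
  simpa using this

end

end Pool.Agent.W634.BQ
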