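import Mathlib
import Pool.Agent.W634.BQ.Filt

set_option autoImplicit false
open Filter Topology Finset

namespace Pool.Agent.W634.BQ

/-- the one step statement -/
def Step (F : Filter ℤ) (r : ℕ) (c : ℤ → Fin r) : Prop :=
  ∃ (F1 : Finset ℤ) (N2 : ℕ), ∀ (A : Set ℤ) (w : ℤ → Fin r), Aᶜ ∉ F →
    (∀ s ∈ F1, ∀ a ∈ A, c (a + s) = w s) → ∀ N0 : ℤ,
    ∃ n ∈ A, N0 ≤ n ∧ ∃ s ∈ F1, ∃ t < N2, {a | a ∈ A ∧ c (a + s + (n + t) ^ 2) = w s}ᶜ ∉ F

/-- the state of the construction -/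
structure St (F : Filter ℤ) (A0 : Set ℤ) where
  A : Set ℤ
  hA : Aᶜ ∉ F
  sub : A ⊆ A0
  last : ℤ

theorem seq_of_step {F : Filter ℤ} (hF : Mx F) {r : ℕ} {c : ℤ → Fin r} (h : Step F r c) :
    ∃ (n : ℕ → ℤ) (s t : ℤ) (k : Fin r), (∀ i, 0 < n i) ∧ (∀ i, 0 ≤ n i + s) ∧
      StrictMono n ∧ 0 ≤ t ∧
      (∀ i, c (n i + s) = k) ∧ (∀ i j, i < j → c (n j + s + (n i + t) ^ 2) = k) := by
  classical
  obtain ⟨F1, N2, h⟩ := h
  obtain ⟨B, hB0, hBs⟩ : ∃ B : ℤ, 0 ≤ B ∧ ∀ s ∈ F1, -s ≤ B := by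
    refine ⟨∑ s ∈ F1, |s|, Finset.sum_nonneg fun s _ => abs_nonneg s, fun s hs => ?_⟩
    exact (neg_le_abs s).trans (Finset.single_le_sum (f := fun s : ℤ => |s|)
      (fun s _ => abs_nonneg s) hs)
  have := hF.ne
  obtain ⟨i0, hi0⟩ := part F Set.univ (by simp) (fun a => fun s : F1 => c (a + s))
  set A0 : Set ℤ := {n | n ∈ Set.univ ∧ (fun s : F1 => c (n + s)) = i0} with hA0
  set w : ℤ → Fin r := fun s => if hs : s ∈ F1 then i0 ⟨s, hs⟩ else c 0 with hw
  have hcw : ∀ s ∈ F1, ∀ a ∈ A0, c (a + s) = w s := by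
    intro s hs a ha
    have := congrFun ha.2 ⟨s, hs⟩
    simp only [hw, dif_pos hs]
    exact this
  have hst : ∀ x : St F A0, ∃ n ∈ x.A, x.last + 1 ≤ n ∧ ∃ s ∈ F1, ∃ t < N2,
      {a | a ∈ x.A ∧ c (a + s + (n + t) ^ 2) = w s}ᶜ ∉ F := fun x =>
    h x.A w x.hA (fun s hs a ha => hcw s hs a (x.sub ha)) (x.last + 1)
  choose n hn hge s hs t ht hl using hst
  let g : St F A0 → St F A0 := fun x =>
    { A := {a | a ∈ x.A ∧ c (a + s x + (n x + t x) ^ 2) = w (s x)}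
      hA := hl x
      sub := fun a ha => x.sub ha.1
      last := n x }
  let x0 : St F A0 := ⟨A0, hi0, subset_rfl, B⟩
  let X : ℕ → St F A0 := fun k => g^[k] x0
  have hX : ∀ k, X (k + 1) = g (X k) := fun k => Function.iterate_succ_apply' g k x0
  have hlast : ∀ k, (X (k + 1)).last = n (X k) := fun k => by rw [hX]
  have hmono : StrictMono (fun k => n (X k)) := by
    refine strictMono_nat_of_lt_succ fun k => ?_
    have := hge (X (k + 1))
    rw [hlast] at this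
    show n (X k) < n (X (k + 1))
    omega
  have hB : ∀ k, B < n (X k) := by
    intro k
    have h0 : B < n (X 0) := by
      have h1 : (X 0).last = B := rfl
      have := hge (X 0)
      omega
    exact lt_of_lt_of_le h0 (hmono.monotone (Nat.zero_le k))
  have hsubs : ∀ k, (X (k + 1)).A ⊆ (X k).A := by
    intro k
    rw [hX]
    exact fun a ha => ha.1
  have hanti : Antitone (fun k => (X k).A) := antitone_nat_of_succ_le hsubs
  have hkey : ∀ k l, k < l → c (n (X l) + s (X k) + (n (X k) + t (X k)) ^ 2) = w (s (X k)) := by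
    intro k l hkl
    have h1 : n (X l) ∈ (X (k + 1)).A := hanti (Nat.succ_le_of_lt hkl) (hn (X l))
    rw [hX] at h1
    exact h1.2
  -- pigeonhole
  let q : ℕ → (F1 × Fin N2) := fun k => (⟨s (X k), hs (X k)⟩, ⟨t (X k), ht (X k)⟩)
  obtain ⟨⟨⟨s0, hs0⟩, ⟨t0, ht0⟩⟩, hq⟩ := Finite.exists_infinite_fiber q
  have hinf : {k | s (X k) = s0 ∧ t (X k) = t0}.Infinite := by
    rw [← Set.infinite_coe_iff]
    have : {k | s (X k) = s0 ∧ t (X k) = t0} = q ⁻¹' {(⟨s0, hs0⟩, ⟨t0, ht0⟩)} := by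
      ext k
      simp [q, Prod.ext_iff]
    rw [this]
    exact hq
  let e : ℕ → ℕ := Nat.nth fun k => s (X k) = s0 ∧ t (X k) = t0
  have he : StrictMono e := Nat.nth_strictMono hinf
  have hem : ∀ i, s (X (e i)) = s0 ∧ t (X (e i)) = t0 := fun i => Nat.nth_mem_of_infinite hinf i
  refine ⟨fun i => n (X (e i)), s0, t0, w s0, fun i => lt_of_le_of_lt hB0 (hB _), fun i => ?_,
    hmono.comp he, by positivity, ?_, ?_⟩
  · have h1 := hBs s0 hs0
    have h2 := hB (e i)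
    show 0 ≤ n (X (e i)) + s0
    omega
  · intro i
    exact hcw s0 hs0 _ ((X (e i)).sub (hn _))
  · intro i j hij
    have := hkey (e i) (e j) (he hij)
    rw [(hem i).1, (hem i).2] at this
    exact this

/-- reduction of `S07967` to the one step statement -/
theorem main_of_step (h : ∀ (r : ℕ) (c : ℤ → Fin r), ∃ F, Mx F ∧ Step F r c) :
    ∀ (r : ℕ) (c : ℕ → Fin r),
      ∃ (b : ℕ → ℕ) (t : ℤ) (k : Fin r),
        StrictMono b ∧ 0 < b 0 ∧
        (∀ i : ℕ, ∃ n : ℕ, (n : ℤ) = (b i : ℤ) + t ∧ c n = k) ∧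
        (∀ i j : ℕ, i < j →
          ∃ n : ℕ, (n : ℤ) = (b i : ℤ) ^ 2 + (b j : ℤ) + t ∧ c n = k) := by
  intro r c
  obtain ⟨F, hF, hs⟩ := h r (fun n => c n.toNat)
  obtain ⟨n, s, t, k, hn, hns, hmono, ht, h1, h2⟩ := seq_of_step hF hs
  have hpos : ∀ i, 0 < n i + t := fun i => by have := hn i; omega
  have hcast : ∀ i, (((n i + t).toNat : ℕ) : ℤ) = n i + t := fun i =>
    Int.toNat_of_nonneg (hpos i).le
  refine ⟨fun i => (n i + t).toNat, s - t, k, ?_, ?_, ?_, ?_⟩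
  · intro i j hij
    have := hmono hij
    have h3 := hcast i
    have h4 := hcast j
    show (n i + t).toNat < (n j + t).toNat
    omega
  · have := hpos 0
    show 0 < (n 0 + t).toNat
    omega
  · intro i
    refine ⟨(n i + s).toNat, ?_, h1 i⟩
    rw [Int.toNat_of_nonneg (hns i), hcast]
    ring
  · intro i j hij
    have h5 : 0 ≤ n j + s + (n i + t) ^ 2 := by
      have := hns j
      positivity
    refine ⟨(n j + s + (n i + t) ^ 2).toNat, ?_, h2 i j hij⟩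
    rw [Int.toNat_of_nonneg h5, hcast, hcast]
    ring

end Pool.Agent.W634.BQ
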