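import Mathlib
import Pool.Agent.W634.BQ.Stms3
import Pool.Agent.W634.BQ.Grp
import Pool.Agent.W634.BQ.Red

set_option autoImplicit false
open MeasureTheory Filter Topology Finset
open scoped BoundedContinuousFunction

namespace Pool.Agent.W634.BQ

section
variable {Z : Type} [AddCommGroup Z] [TopologicalSpace Z] [IsTopologicalAddGroup Z]
  [CompactSpace Z] [T2Space Z] [SecondCountableTopology Z] [MeasurableSpace Z] [BorelSpace Z]
  {μ : Measure Z} [IsProbabilityMeasure μ] [μ.IsAddHaarMeasure]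

/-- translate of a continuous function -/
def tr (a : Z) (ψ : C(Z, ℝ)) : C(Z, ℝ) := ⟨fun z => ψ (z + a), by fun_prop⟩

theorem tr_apply (a : Z) (ψ : C(Z, ℝ)) (z : Z) : tr a ψ z = ψ (z + a) := rfl

theorem dens_shift {m : (ℤ →ᵇ ℝ) →ₗ[ℝ] ℝ} (hm : IsMean m) {α : Z} {A : Set ℤ} {fA : Z → ℝ}
    (hA : ∀ φ : C(Z, ℝ), m (pull α φ * ind A) = ∫ z, φ z * fA z ∂μ) (h : ℤ) (ψ : C(Z, ℝ)) :
    m (pull α ψ * sh h (ind A)) = ∫ z, ψ z * fA (z + h • α) ∂μ := by
  have h1 : sh (-h) (pull α ψ * sh h (ind A)) = pull α (tr ((-h) • α) ψ) * ind A := by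
    ext n
    simp only [sh_apply, BoundedContinuousFunction.mul_apply, pull_apply, tr_apply]
    rw [add_smul, neg_add_cancel_right]
  rw [← hm.shift (-h), h1, hA]
  have h2 := integral_add_right_eq_self (μ := μ) (fun z => ψ z * fA (z + h • α)) ((-h) • α)
  rw [← h2]
  refine integral_congr_ae (Eventually.of_forall fun z => ?_)
  simp only [tr_apply]
  rw [neg_smul, neg_add_cancel_right]

end

/-- choice of widely spaced integers -/
theorem exists_spaced (P : ℤ → Prop) (hP : ∀ B : ℤ, ∃ x, B ≤ x ∧ P x) (J K : Finset ℤ) :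
    ∃ c : ℤ → ℤ, (∀ h ∈ J, P (c h)) ∧
      ∀ h ∈ J, ∀ h' ∈ J, ∀ k ∈ K, ∀ k' ∈ K, c h + k = c h' + k' → h = h' ∧ k = k' := by
  classical
  induction J using Finset.induction_on with
  | empty => exact ⟨fun _ => 0, by simp, by simp⟩
  | insert h0 J hh0 ih =>
    obtain ⟨c, hc1, hc2⟩ := ih
    obtain ⟨x, hx1, hx2⟩ := hP (1 + ∑ h ∈ J, ∑ k ∈ K, ∑ k' ∈ K, |c h + k - k'|)
    have hbig : ∀ h ∈ J, ∀ k ∈ K, ∀ k' ∈ K, |c h + k - k'| < x := by
      intro h hh k hk k' hk'
      have a1 : |c h + k - k'| ≤ ∑ k' ∈ K, |c h + k - k'| :=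
        Finset.single_le_sum (f := fun k' => |c h + k - k'|) (fun _ _ => abs_nonneg _) hk'
      have a2 : ∑ k' ∈ K, |c h + k - k'| ≤ ∑ k ∈ K, ∑ k' ∈ K, |c h + k - k'| :=
        Finset.single_le_sum (f := fun k => ∑ k' ∈ K, |c h + k - k'|)
          (fun _ _ => Finset.sum_nonneg fun _ _ => abs_nonneg _) hk
      have a3 : ∑ k ∈ K, ∑ k' ∈ K, |c h + k - k'| ≤ ∑ h ∈ J, ∑ k ∈ K, ∑ k' ∈ K, |c h + k - k'| :=
        Finset.single_le_sum (f := fun h => ∑ k ∈ K, ∑ k' ∈ K, |c h + k - k'|)
          (fun _ _ => Finset.sum_nonneg fun _ _ => Finset.sum_nonneg fun _ _ => abs_nonneg _) hh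
      omega
    refine ⟨Function.update c h0 x, ?_, ?_⟩
    · intro h hh
      rcases Finset.mem_insert.1 hh with rfl | hh
      · rwa [Function.update_self]
      · rw [Function.update_of_ne (ne_of_mem_of_not_mem hh hh0)]
        exact hc1 h hh
    · intro h hh h' hh' k hk k' hk' heq
      rcases Finset.mem_insert.1 hh with e1 | hJ
      · rcases Finset.mem_insert.1 hh' with e2 | hJ'
        · rw [e1, e2] at heq ⊢
          exact ⟨rfl, by omega⟩
        · exfalso
          rw [e1, Function.update_self,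
            Function.update_of_ne (ne_of_mem_of_not_mem hJ' hh0)] at heq
          have := hbig h' hJ' k' hk' k hk
          have := le_abs_self (c h' + k' - k)
          omega
      · rcases Finset.mem_insert.1 hh' with e2 | hJ'
        · exfalso
          rw [e2, Function.update_self,
            Function.update_of_ne (ne_of_mem_of_not_mem hJ hh0)] at heq
          have := hbig h hJ k hk k' hk'
          have := le_abs_self (c h + k - k')
          omega
        · rw [Function.update_of_ne (ne_of_mem_of_not_mem hJ' hh0),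
            Function.update_of_ne (ne_of_mem_of_not_mem hJ hh0)] at heq
          exact hc2 h hJ h' hJ' k hk k' hk' heq

end Pool.Agent.W634.BQ
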