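import Mathlib
import Pool.Agent.W634.BQ.Core

set_option autoImplicit false
set_option linter.unusedSectionVars false
open MeasureTheory Filter Topology Finset
open scoped BoundedContinuousFunction

namespace Pool.Agent.W634.BQ

section
variable {Z : Type} [AddCommGroup Z] [TopologicalSpace Z] [IsTopologicalAddGroup Z]
  [CompactSpace Z] [T2Space Z] [SecondCountableTopology Z] [MeasurableSpace Z] [BorelSpace Z]
  {μ : Measure Z} [IsProbabilityMeasure μ] [μ.IsAddHaarMeasure]

/-- the densities of the translates of a syndetic set cover -/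
theorem dens_cover {m : (ℤ →ᵇ ℝ) →ₗ[ℝ] ℝ} (hm : IsMean m) {α : Z} {A : Set ℤ} {fA : Z → ℝ}
    (hfA : Measurable fA) (hb : ∀ z, 0 ≤ fA z ∧ fA z ≤ 1)
    (hμ : ∀ φ : C(Z, ℝ), m (pull α φ) = ∫ z, φ z ∂μ)
    (hA : ∀ φ : C(Z, ℝ), m (pull α φ * ind A) = ∫ z, φ z * fA z ∂μ)
    {H : Finset ℤ} (hH : m (ind {n | ∃ h ∈ H, n + h ∈ A}ᶜ) = 0)
    {v : Z → ℝ} (hv : Integrable v μ) (hv0 : ∀ z, 0 ≤ v z) :
    ∫ z, v z ∂μ ≤ ∑ h ∈ H, ∫ z, v z * fA (z + h • α) ∂μ := by
  classical
  have hfm : ∀ h : ℤ, Measurable fun z => fA (z + h • α) := fun h =>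
    hfA.comp (measurable_add_const _)
  have hvi : ∀ h : ℤ, Integrable (fun z => v z * fA (z + h • α)) μ := by
    intro h
    refine Integrable.mono' hv.norm (hv.aestronglyMeasurable.mul (hfm h).aestronglyMeasurable)
      (Eventually.of_forall fun z => ?_)
    rw [norm_mul]
    have : ‖fA (z + h • α)‖ ≤ 1 := by
      rw [Real.norm_eq_abs, abs_of_nonneg (hb _).1]; exact (hb _).2
    calc ‖v z‖ * ‖fA (z + h • α)‖ ≤ ‖v z‖ * 1 := mul_le_mul_of_nonneg_left this (norm_nonneg _)
      _ = ‖v z‖ := mul_one _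
  set u : Z → ℝ := fun z => (∑ h ∈ H, fA (z + h • α)) - 1 with hu
  have hum : Measurable u := (Finset.measurable_sum H fun h _ => hfm h).sub_const 1
  have hub : ∀ z, |u z| ≤ H.card + 1 := by
    intro z
    have h1 : 0 ≤ ∑ h ∈ H, fA (z + h • α) := Finset.sum_nonneg fun h _ => (hb _).1
    have h2 : ∑ h ∈ H, fA (z + h • α) ≤ H.card := by
      calc ∑ h ∈ H, fA (z + h • α) ≤ ∑ h ∈ H, (1 : ℝ) := Finset.sum_le_sum fun h _ => (hb _).2
        _ = H.card := by simp
    rw [abs_le]
    constructor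
    · show -((H.card : ℝ) + 1) ≤ (∑ h ∈ H, fA (z + h • α)) - 1
      have : (0 : ℝ) ≤ H.card := by positivity
      linarith
    · show (∑ h ∈ H, fA (z + h • α)) - 1 ≤ (H.card : ℝ) + 1
      linarith
  have htest : ∀ ψ : C(Z, ℝ), (∀ z, 0 ≤ ψ z) → 0 ≤ ∫ z, ψ z * u z ∂μ := by
    intro ψ hψ
    have h1 : m (pull α ψ) ≤ ∑ h ∈ H, m (pull α ψ * sh h (ind A)) := by
      rw [hm.mul_full hH (f := pull α ψ) (fun n => by rw [pull_apply]; exact hψ _), ← map_sum]
      apply hm.mono
      intro n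
      rw [BoundedContinuousFunction.mul_apply, BoundedContinuousFunction.sum_apply]
      simp only [BoundedContinuousFunction.mul_apply, sh_apply]
      rw [← Finset.mul_sum]
      apply mul_le_mul_of_nonneg_left _ (by rw [pull_apply]; exact hψ _)
      by_cases hn : n ∈ {n : ℤ | ∃ h ∈ H, n + h ∈ A}
      · rw [ind_mem hn]
        obtain ⟨h, hh, hnA⟩ := hn
        calc (1 : ℝ) = ind A (n + h) := (ind_mem hnA).symm
          _ ≤ ∑ h ∈ H, ind A (n + h) :=
            Finset.single_le_sum (f := fun h => ind A (n + h)) (fun _ _ => ind_nonneg A _) hh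
      · rw [ind_notMem hn]
        exact Finset.sum_nonneg fun h _ => ind_nonneg A _
    rw [hμ] at h1
    simp only [dens_shift hm hA] at h1
    have h2 : ∀ h : ℤ, Integrable (fun z => ψ z * fA (z + h • α)) μ := fun h =>
      int_cont ψ (hfm h) fun z => hb _
    have h3 : ∫ z, ψ z * u z ∂μ = (∑ h ∈ H, ∫ z, ψ z * fA (z + h • α) ∂μ) - ∫ z, ψ z ∂μ := by
      rw [← integral_finset_sum H fun h _ => h2 h, ← integral_sub (integrable_finset_sum H fun h _ => h2 h)
        ((map_continuous ψ).integrable_of_hasCompactSupport (HasCompactSupport.of_compactSpace _))]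
      refine integral_congr_ae (Eventually.of_forall fun z => ?_)
      simp only [hu, mul_sub, mul_one, Finset.mul_sum]
    rw [h3]
    linarith
  have h4 := test hum hub htest hv hv0
  have h5 : ∫ z, v z * u z ∂μ = (∑ h ∈ H, ∫ z, v z * fA (z + h • α) ∂μ) - ∫ z, v z ∂μ := by
    rw [← integral_finset_sum H fun h _ => hvi h, ← integral_sub (integrable_finset_sum H fun h _ => hvi h) hv]
    refine integral_congr_ae (Eventually.of_forall fun z => ?_)
    simp only [hu, mul_sub, mul_one, Finset.mul_sum]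
  rw [h5] at h4
  linarith

end

end Pool.Agent.W634.BQ
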