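import Mathlib
import Pool.Agent.W634.BQ.Fin

set_option autoImplicit false
set_option linter.unusedSectionVars false
open MeasureTheory Filter Topology Finset
open scoped BoundedContinuousFunction

namespace Pool.Agent.W634.BQ

/-- a finite averaging argument -/
theorem find_good {E : Type} [Fintype E] (R : ℤ → Prop) (N3 : ℕ) (hN3 : 0 < N3)
    (hR : ∀ n : ℤ, ∃ t : ℕ, t < N3 ∧ R (n + t)) (err : E → ℤ → ℝ) (ε1 : ℝ) (hε1 : 0 < ε1)
    (hv : ∀ (e : E) (δ : ℝ), 0 < δ → ∃ L0 : ℕ, ∀ L : ℕ, L0 ≤ L → ∀ N : ℤ,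
      ∑ n ∈ range L, (err e (N + n)) ^ 2 ≤ δ * L) :
    ∃ L : ℕ, ∀ N : ℤ, ∃ j : ℕ, j < L ∧ R (N + j) ∧ ∀ e, |err e (N + j)| < ε1 := by
  classical
  set δ : ℝ := ε1 ^ 2 / (2 * ((Fintype.card E : ℝ) + 1) * N3) with hδ
  have hN3' : (0 : ℝ) < N3 := by exact_mod_cast hN3
  have hδ0 : 0 < δ := by positivity
  choose L0 hL0 using fun e => hv e δ hδ0
  set K : ℕ := 1 + ∑ e, L0 e with hK
  refine ⟨K * N3, fun N => ?_⟩
  by_contra hcon
  push Not at hcon
  have hL : ∀ e, L0 e ≤ K * N3 := by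
    intro e
    have h1 : L0 e ≤ ∑ e, L0 e := Finset.single_le_sum (f := L0) (fun _ _ => Nat.zero_le _)
      (Finset.mem_univ e)
    nlinarith
  have h1 : ∑ e, ∑ n ∈ range (K * N3), (err e (N + n)) ^ 2 ≤
      Fintype.card E * (δ * ((K * N3 : ℕ) : ℝ)) := by
    calc ∑ e, ∑ n ∈ range (K * N3), (err e (N + n)) ^ 2
        ≤ ∑ _e : E, δ * ((K * N3 : ℕ) : ℝ) := Finset.sum_le_sum fun e _ => hL0 e _ (hL e) N
      _ = _ := by rw [Finset.sum_const, nsmul_eq_mul, Finset.card_univ]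
  -- lower bound
  have h2 : (K : ℝ) * ε1 ^ 2 ≤ ∑ n ∈ range (K * N3), ∑ e, (err e (N + n)) ^ 2 := by
    have h3 : ∀ k : ℕ, k ≤ K → (k : ℝ) * ε1 ^ 2 ≤
        ∑ n ∈ range (k * N3), ∑ e, (err e (N + n)) ^ 2 := by
      intro k hk
      induction k with
      | zero => simp
      | succ k ih =>
        have ih' := ih (by omega)
        rw [Nat.succ_mul, Finset.sum_range_add]
        have h4 : ε1 ^ 2 ≤ ∑ x ∈ range N3, ∑ e, (err e (N + ((k * N3 + x : ℕ) : ℤ))) ^ 2 := by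
          obtain ⟨t, ht, hRt⟩ := hR (N + (k * N3 : ℕ))
          have h5 : k * N3 + t < K * N3 := by nlinarith
          have hRt' : R (N + ((k * N3 + t : ℕ) : ℤ)) := by
            have : N + ((k * N3 : ℕ) : ℤ) + (t : ℤ) = N + ((k * N3 + t : ℕ) : ℤ) := by
              push_cast; ring
            rwa [this] at hRt
          obtain ⟨e, he⟩ := hcon _ h5 hRt'
          calc ε1 ^ 2 ≤ |err e (N + ((k * N3 + t : ℕ) : ℤ))| ^ 2 :=
                pow_le_pow_left₀ hε1.le he 2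
            _ = (err e (N + ((k * N3 + t : ℕ) : ℤ))) ^ 2 := sq_abs _
            _ ≤ ∑ e, (err e (N + ((k * N3 + t : ℕ) : ℤ))) ^ 2 :=
                Finset.single_le_sum
                  (f := fun e => (err e (N + ((k * N3 + t : ℕ) : ℤ))) ^ 2)
                  (fun _ _ => sq_nonneg _) (Finset.mem_univ e)
            _ ≤ _ := Finset.single_le_sum
                  (f := fun x : ℕ => ∑ e, (err e (N + ((k * N3 + x : ℕ) : ℤ))) ^ 2)
                  (fun _ _ => Finset.sum_nonneg fun _ _ => sq_nonneg _)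
                  (Finset.mem_range.2 ht)
        push_cast at ih' h4 ⊢
        linarith
    exact h3 K le_rfl
  rw [Finset.sum_comm] at h2
  have h6 : (K : ℝ) * ε1 ^ 2 ≤ Fintype.card E * (δ * ((K * N3 : ℕ) : ℝ)) := h2.trans h1
  have hKpos : (0 : ℝ) < K := by
    have : 0 < K := by omega
    exact_mod_cast this
  have h7 : (Fintype.card E : ℝ) * (δ * ((K * N3 : ℕ) : ℝ)) ≤ K * ε1 ^ 2 / 2 := by
    push_cast
    rw [hδ]
    have hc : (0 : ℝ) ≤ Fintype.card E := by positivity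
    have : (Fintype.card E : ℝ) * (ε1 ^ 2 / (2 * ((Fintype.card E : ℝ) + 1) * N3) * (K * N3))
        = K * ε1 ^ 2 / 2 * ((Fintype.card E : ℝ) / ((Fintype.card E : ℝ) + 1)) := by
      field_simp
    rw [this]
    have h8 : (Fintype.card E : ℝ) / ((Fintype.card E : ℝ) + 1) ≤ 1 := by
      rw [div_le_one (by positivity)]; linarith
    have h9 : 0 ≤ (K : ℝ) * ε1 ^ 2 / 2 := by positivity
    nlinarith
  have h10 : 0 < (K : ℝ) * ε1 ^ 2 := by positivity
  linarith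

theorem finish {G : CG} {m : (ℤ →ᵇ ℝ) →ₗ[ℝ] ℝ} (hm : IsMean m) {F : Filter ℤ} (hF : Mx F)
    (hnull : ∀ A : Set ℤ, Aᶜ ∈ F → m (ind A) = 0)
    {r : ℕ} {c : ℤ → Fin r} {w : ℤ → Fin r} {g : Fin r → G.Z → ℝ}
    (hgm : ∀ i, Measurable (g i)) (hgb : ∀ i z, 0 ≤ g i z ∧ g i z ≤ 1)
    (hμ : ∀ φ : C(G.Z, ℝ), m (pull G.α φ) = ∫ z, φ z ∂G.μ)
    {A : Set ℤ} {fA : G.Z → ℝ} (hfm : Measurable fA) (hfb : ∀ z, 0 ≤ fA z ∧ fA z ≤ 1)
    (hfd : ∀ φ : C(G.Z, ℝ), m (pull G.α φ * ind A) = ∫ z, φ z * fA z ∂G.μ)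
    (hvdc : ∀ (i : Fin r) (s : ℤ) (ε : ℝ), 0 < ε → ∃ L0 : ℕ, ∀ L : ℕ, L0 ≤ L → ∀ N : ℤ,
          ∑ n ∈ range L, (m (ind A * sh (s + (N + n) ^ 2) (ind {n | c n = i})) -
            ∫ z, fA z * g i (z + (s + (N + n) ^ 2) • G.α) ∂G.μ) ^ 2 ≤ ε * L)
    {H : Finset ℤ} (hH : {n | ∃ h ∈ H, n + h ∈ A} ∈ F) (sH : ℤ → ℤ) (τ : ℤ → ℕ)
    (J K : Finset ℤ) (φ : C(G.Z, ℝ)) (hφnn : ∀ z, 0 ≤ φ z) (hφle : ∀ z, φ z ≤ 1)
    (hJ : ∀ h ∈ H, 0 < ∫ z, φ z * fA (z + h • G.α) ∂G.μ → h ∈ J)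
    (hK : ∀ h ∈ H, h + (τ h : ℤ) ∈ K) (cc : ℤ → ℤ)
    (κ : {e : ℤ × ℤ // e ∈ J ×ˢ K} → ℤ) (hκ : ∀ e, κ e = cc e.1.1 + e.1.2)
    (O : Set (G.Z × G.Z)) (ε : ℝ) (hε : 0 < ε)
    (hI : ∀ p ∈ O, ε ≤ ∫ z, φ z * ∏ e : {e : ℤ × ℤ // e ∈ J ×ˢ K}, g (w (sH e.1.1))
      (z + (e.1.1 + sH e.1.1) • G.α + p.2 + (2 * κ e) • p.1 + (κ e ^ 2) • G.α) ∂G.μ)
    (N3 : ℕ) (hN3pos : 0 < N3)
    (hN3 : ∀ n : ℤ, ∃ t : ℕ, t < N3 ∧ ((n + t) • G.α, ((n + t) ^ 2) • G.α) ∈ O)
    (N0 : ℤ) (hbad : ∀ n ∈ A, N0 ≤ n → ∀ h ∈ J, ∀ h' ∈ H,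
      {a | a ∈ A ∧ c (a + sH h + (n + (τ h' : ℤ)) ^ 2) = w (sH h)}ᶜ ∈ F) : False := by
  classical
  have hfmh : ∀ h : ℤ, Measurable fun z => fA (z + h • G.α) := fun h =>
    hfm.comp (measurable_add_const _)
  -- errors
  set ε1 : ℝ := ε / (H.card + 1) with hε1
  have hε1pos : 0 < ε1 := by positivity
  obtain ⟨L, hL⟩ := find_good (E := {e : ℤ × ℤ // e ∈ J ×ˢ K})
    (fun n => ((n • G.α, (n ^ 2) • G.α) : G.Z × G.Z) ∈ O) N3 hN3pos hN3
    (fun e n => m (ind A * sh (sH e.1.1 + (n + κ e) ^ 2) (ind {n | c n = w (sH e.1.1)})) -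
      ∫ z, fA z * g (w (sH e.1.1)) (z + (sH e.1.1 + (n + κ e) ^ 2) • G.α) ∂G.μ)
    ε1 hε1pos (by
      intro e δ hδ
      obtain ⟨L0, hL0⟩ := hvdc (w (sH e.1.1)) (sH e.1.1) δ hδ
      refine ⟨L0, fun L hL N => ?_⟩
      refine le_trans (le_of_eq (Finset.sum_congr rfl fun n _ => ?_)) (hL0 L hL (N + κ e))
      have h2 : N + κ e + (n : ℤ) = N + n + κ e := by ring
      rw [h2])
  -- a good window
  have hGF : (⋂ h ∈ J, {n : ℤ | n + cc h ∈ {n : ℤ | ∃ h' ∈ H, n + h' ∈ A}}) ∈ F :=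
    (Filter.biInter_finset_mem _).2 fun h _ => hF.inv (cc h) _ hH
  obtain ⟨N, hN0, hN⟩ := hF.interval hGF L (N0 + ∑ h ∈ J, ∑ h' ∈ H, |cc h + h'|)
  obtain ⟨j, hj, hR, herr⟩ := hL N
  set m' : ℤ := N + j with hm'
  have hIp := hI _ hR
  set PP : G.Z → ℝ := fun z => ∏ e : {e : ℤ × ℤ // e ∈ J ×ˢ K}, g (w (sH e.1.1))
    (z + (e.1.1 + sH e.1.1) • G.α + ((m' ^ 2) • G.α) + (2 * κ e) • (m' • G.α) +
      (κ e ^ 2) • G.α) with hP
  have hPm : Measurable PP := by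
    apply Finset.measurable_fun_prod
    intro e _
    exact (hgm _).comp ((((measurable_add_const _).add_const _).add_const _).add_const _)
  have hP0 : ∀ z, 0 ≤ PP z := fun z => Finset.prod_nonneg fun e _ => (hgb _ _).1
  have hP1 : ∀ z, PP z ≤ 1 := fun z => Finset.prod_le_one (fun e _ => (hgb _ _).1)
    fun e _ => (hgb _ _).2
  have hφP : Integrable (fun z => φ z * PP z) G.μ := int_cont φ hPm fun z => ⟨hP0 z, hP1 z⟩
  have hIp' : ε ≤ ∫ z, φ z * PP z ∂G.μ := hIp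
  have hcover := dens_cover hm hfm hfb hμ hfd (H := H) (hnull _ (by rwa [compl_compl]))
    hφP (fun z => mul_nonneg (hφnn z) (hP0 z))
  have hint : ∀ h : ℤ, Integrable (fun z => φ z * PP z * fA (z + h • G.α)) G.μ := by
    intro h
    refine Integrable.mono' hφP.norm (hφP.aestronglyMeasurable.mul (hfmh h).aestronglyMeasurable)
      (Eventually.of_forall fun z => ?_)
    rw [norm_mul]
    have : ‖fA (z + h • G.α)‖ ≤ 1 := by
      rw [Real.norm_eq_abs, abs_of_nonneg (hfb _).1]; exact (hfb _).2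
    calc ‖φ z * PP z‖ * ‖fA (z + h • G.α)‖ ≤ ‖φ z * PP z‖ * 1 :=
          mul_le_mul_of_nonneg_left this (norm_nonneg _)
      _ = ‖φ z * PP z‖ := mul_one _
  -- some h in J has a large integral
  obtain ⟨h, hhH, hhε⟩ : ∃ h ∈ H, ε1 ≤ ∫ z, φ z * PP z * fA (z + h • G.α) ∂G.μ := by
    by_contra hc
    push Not at hc
    have h1 : ∑ h ∈ H, ∫ z, φ z * PP z * fA (z + h • G.α) ∂G.μ ≤ ∑ _h ∈ H, ε1 :=
      Finset.sum_le_sum fun h hh => (hc h hh).le
    rw [Finset.sum_const, nsmul_eq_mul] at h1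
    have h2 : (H.card : ℝ) * ε1 < ε := by
      rw [hε1, mul_div_assoc', div_lt_iff₀ (by positivity)]
      nlinarith
    linarith
  have hhJ : h ∈ J := by
    refine hJ h hhH (lt_of_lt_of_le hε1pos (hhε.trans ?_))
    apply integral_mono (hint h) (int_cont φ (hfmh h) fun z => hfb _)
    intro z
    show φ z * PP z * fA (z + h • G.α) ≤ φ z * fA (z + h • G.α)
    have h1 : φ z * PP z ≤ φ z := by
      have := mul_le_mul_of_nonneg_left (hP1 z) (hφnn z)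
      linarith
    exact mul_le_mul_of_nonneg_right h1 (hfb _).1
  -- a return time
  have hwin := hN j hj
  rw [Set.mem_iInter₂] at hwin
  obtain ⟨h', hh'H, hA'⟩ := hwin h hhJ
  set k : ℤ := h' + τ h' with hk
  have hkK : k ∈ K := hK h' hh'H
  let e : {e : ℤ × ℤ // e ∈ J ×ˢ K} := ⟨(h, k), Finset.mem_product.2 ⟨hhJ, hkK⟩⟩
  have hκe : κ e = cc h + k := hκ e
  have hn1 : N0 ≤ m' + cc h + h' := by
    have h1 : |cc h + h'| ≤ ∑ h' ∈ H, |cc h + h'| :=
      Finset.single_le_sum (f := fun h' => |cc h + h'|) (fun _ _ => abs_nonneg _) hh'H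
    have h2 : ∑ h' ∈ H, |cc h + h'| ≤ ∑ h ∈ J, ∑ h' ∈ H, |cc h + h'| :=
      Finset.single_le_sum (f := fun h => ∑ h' ∈ H, |cc h + h'|)
        (fun _ _ => Finset.sum_nonneg fun _ _ => abs_nonneg _) hhJ
    have h3 := neg_abs_le (cc h + h')
    omega
  have hbad := hbad (m' + cc h + h') hA' hn1 h hhJ h' hh'H
  -- the correlation vanishes
  have hzero : m (ind A * sh (sH e.1.1 + (m' + κ e) ^ 2) (ind {n | c n = w (sH e.1.1)})) = 0 := by
    have h1 : ind A * sh (sH e.1.1 + (m' + κ e) ^ 2) (ind {n | c n = w (sH e.1.1)}) =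
        ind {a | a ∈ A ∧ c (a + sH h + (m' + cc h + h' + (τ h' : ℤ)) ^ 2) = w (sH h)} := by
      ext n
      rw [BoundedContinuousFunction.mul_apply, sh_apply]
      have h2 : n + (sH e.1.1 + (m' + κ e) ^ 2) =
          n + sH h + (m' + cc h + h' + (τ h' : ℤ)) ^ 2 := by
        rw [hκe]
        show n + (sH h + (m' + (cc h + (h' + (τ h' : ℤ)))) ^ 2) = _
        ring
      rw [h2]
      by_cases hnA : n ∈ A
      · by_cases hcn : c (n + sH h + (m' + cc h + h' + (τ h' : ℤ)) ^ 2) = w (sH h)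
        · rw [ind_mem hnA, ind_mem (show _ ∈ {n | c n = w (sH e.1.1)} from hcn),
            ind_mem (show n ∈ {a | a ∈ A ∧
              c (a + sH h + (m' + cc h + h' + (τ h' : ℤ)) ^ 2) = w (sH h)} from ⟨hnA, hcn⟩),
            one_mul]
        · rw [ind_notMem (show _ ∉ {n | c n = w (sH e.1.1)} from hcn),
            ind_notMem (show n ∉ {a | a ∈ A ∧
              c (a + sH h + (m' + cc h + h' + (τ h' : ℤ)) ^ 2) = w (sH h)} from fun h => hcn h.2),
            mul_zero]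
      · rw [ind_notMem hnA, ind_notMem (show n ∉ {a | a ∈ A ∧
              c (a + sH h + (m' + cc h + h' + (τ h' : ℤ)) ^ 2) = w (sH h)} from fun h => hnA h.1),
          zero_mul]
    rw [h1]
    exact hnull _ hbad
  have herr' := herr e
  simp only [hzero, zero_sub, abs_neg] at herr'
  have hlow : ε1 ≤ ∫ z, fA z * g (w (sH e.1.1)) (z + (sH e.1.1 + (m' + κ e) ^ 2) • G.α) ∂G.μ := by
    have h1 : ∫ z, fA z * g (w (sH e.1.1)) (z + (sH e.1.1 + (m' + κ e) ^ 2) • G.α) ∂G.μ =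
        ∫ z, fA (z + h • G.α) * g (w (sH h))
          (z + h • G.α + (sH h + (m' + κ e) ^ 2) • G.α) ∂G.μ :=
      (integral_add_right_eq_self (μ := G.μ) (fun z => fA z * g (w (sH e.1.1))
        (z + (sH e.1.1 + (m' + κ e) ^ 2) • G.α)) (h • G.α)).symm
    rw [h1]
    refine hhε.trans (integral_mono (hint h) ?_ ?_)
    · refine Integrable.mono' (integrable_const (1 : ℝ))
        ((hfmh h).mul ((hgm _).comp ((measurable_add_const _).add_const _))).aestronglyMeasurable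
        (Eventually.of_forall fun z => ?_)
      rw [Real.norm_eq_abs, abs_of_nonneg (mul_nonneg (hfb _).1 (hgb _ _).1)]
      exact mul_le_one₀ (hfb _).2 (hgb _ _).1 (hgb _ _).2
    · intro z
      show φ z * PP z * fA (z + h • G.α) ≤ fA (z + h • G.α) * g (w (sH h))
          (z + h • G.α + (sH h + (m' + κ e) ^ 2) • G.α)
      have h2 : PP z ≤ g (w (sH h)) (z + h • G.α + (sH h + (m' + κ e) ^ 2) • G.α) := by
        have h3 : z + h • G.α + (sH h + (m' + κ e) ^ 2) • G.α =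
            z + (e.1.1 + sH e.1.1) • G.α + ((m' ^ 2) • G.α) + (2 * κ e) • (m' • G.α) +
              (κ e ^ 2) • G.α := by
          show _ = z + (h + sH h) • G.α + ((m' ^ 2) • G.α) + (2 * κ e) • (m' • G.α) +
              (κ e ^ 2) • G.α
          module
        rw [h3, hP]
        show ∏ e : {e : ℤ × ℤ // e ∈ J ×ˢ K}, _ ≤ _
        rw [← Finset.mul_prod_erase Finset.univ _ (Finset.mem_univ e)]
        refine mul_le_of_le_one_right (hgb _ _).1 ?_
        exact Finset.prod_le_one (fun e _ => (hgb _ _).1) fun e _ => (hgb _ _).2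
      have h4 : φ z * PP z ≤ g (w (sH h)) (z + h • G.α + (sH h + (m' + κ e) ^ 2) • G.α) := by
        have := mul_le_mul_of_nonneg_right (hφle z) (hP0 z)
        linarith
      calc φ z * PP z * fA (z + h • G.α)
          ≤ g (w (sH h)) (z + h • G.α + (sH h + (m' + κ e) ^ 2) • G.α) * fA (z + h • G.α) :=
            mul_le_mul_of_nonneg_right h4 (hfb _).1
        _ = _ := mul_comm _ _
  have h1 := le_abs_self (∫ z, fA z * g (w (sH e.1.1))
    (z + (sH e.1.1 + (m' + κ e) ^ 2) • G.α) ∂G.μ)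
  linarith

theorem step_of (hext : S_ext) (hkey : S_key2) (hcl : S_cl) (hrec : S_rec) (r : ℕ)
    (c : ℤ → Fin r) : ∃ F, Mx F ∧ Step F r c := by
  classical
  obtain ⟨F, hF⟩ := exists_mx
  refine ⟨F, hF, ?_⟩
  obtain ⟨m, hm, hex, hnull⟩ := exists_mean hext hF.toGood
  obtain ⟨G, g, hμ, hgm, hgb, hgd, hAll⟩ := hkey m hm hex r (fun i => {n | c n = i})
  obtain ⟨lam, hlp, hl1, hl0, hlr⟩ := hrec G.Z G.μ G.α G.dense
  obtain ⟨Ω, hΩ, ⟨zs, hzs⟩, hreg⟩ := exists_region (μ := G.μ) g hgm hgb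
  -- the neighbourhood V
  obtain ⟨V, hV, hV0, hVV⟩ : ∃ V : Set G.Z, IsOpen V ∧ (0 : G.Z) ∈ V ∧
      ∀ x ∈ V, ∀ y ∈ V, zs + x + y ∈ Ω := by
    have hc : Continuous (fun p : G.Z × G.Z => zs + p.1 + p.2) := by fun_prop
    have hpre := hΩ.preimage hc
    have h00 : ((0 : G.Z), (0 : G.Z)) ∈ (fun p : G.Z × G.Z => zs + p.1 + p.2) ⁻¹' Ω := by
      show zs + 0 + 0 ∈ Ω
      rwa [add_zero, add_zero]
    obtain ⟨u, v, hu, hv, h0u, h0v, huv⟩ := isOpen_prod_iff.1 hpre 0 0 h00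
    exact ⟨u ∩ v, hu.inter hv, ⟨h0u, h0v⟩, fun x hx y hy => huv (Set.mk_mem_prod hx.1 hy.2)⟩
  have hOs : IsOpen {z : G.Z | z - zs ∈ V} := hV.preimage (continuous_id.sub continuous_const)
  obtain ⟨F1, hF1⟩ := exists_cover G.dense hOs ⟨zs, by
    show zs - zs ∈ V
    rwa [sub_self]⟩
  have hVs : IsOpen {p : G.Z × G.Z | p.2 ∈ V} := hV.preimage continuous_snd
  obtain ⟨N2, hN2⟩ := hlr {p | p.2 ∈ V} hVs (hl0 _ hVs hV0)
  refine ⟨F1, N2, fun A w hA hcw N0 => ?_⟩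
  by_contra hcon
  push Not at hcon
  obtain ⟨fA, hfm, hfb, hfd, hvdc⟩ := hAll A
  obtain ⟨H, hH⟩ := hF.synd hA
  choose sH hsH hsV using fun h : ℤ => hF1 (h • G.α)
  choose τ hτ hτV using hN2
  -- the set O1 and the bump function
  set O1 : Set G.Z := ⋂ h ∈ H, {z : G.Z | z + h • G.α + sH h • G.α - zs ∈ V} with hO1
  have hO1o : IsOpen O1 := isOpen_biInter_finset fun h _ => by
    have hc : Continuous (fun z : G.Z => z + h • G.α + sH h • G.α - zs) := by fun_prop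
    exact hV.preimage hc
  have h0O1 : (0 : G.Z) ∈ O1 := by
    rw [hO1, Set.mem_iInter₂]
    intro h _
    show (0 : G.Z) + h • G.α + sH h • G.α - zs ∈ V
    rw [zero_add]
    exact hsV h
  obtain ⟨φ, hφ0, hφ1, hφ01⟩ := exists_continuous_zero_one_of_isClosed
    (s := O1ᶜ) (t := {(0 : G.Z)}) hO1o.isClosed_compl isClosed_singleton
    (by rw [Set.disjoint_singleton_right]; exact fun h => h h0O1)
  have hφnn : ∀ z, 0 ≤ φ z := fun z => (hφ01 z).1
  have hφle : ∀ z, φ z ≤ 1 := fun z => (hφ01 z).2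
  have hφz : φ 0 = 1 := hφ1 rfl
  have hφO : ∀ z, z ∉ O1 → φ z = 0 := fun z hz => hφ0 hz
  have hfmh : ∀ h : ℤ, Measurable fun z => fA (z + h • G.α) := fun h =>
    hfm.comp (measurable_add_const _)
  set J : Finset ℤ := H.filter fun h => 0 < ∫ z, φ z * fA (z + h • G.α) ∂G.μ with hJ
  -- full support
  have hfull : ∀ h ∈ J, ∀ ψ : C(G.Z, ℝ), (∀ z, 0 ≤ ψ z) → (∃ z, ψ z ≠ 0) →
      (∀ z, z ∉ Ω → ψ z = 0) → 0 < ∫ z, ψ z * g (w (sH h)) z ∂G.μ := by
    intro h hh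
    obtain ⟨hhH, hpos⟩ := Finset.mem_filter.1 hh
    rcases hreg (w (sH h)) with h1 | h1
    · exact h1
    · exfalso
      have h2 := h1 (tr (-((h + sH h) • G.α)) φ) (fun z => hφnn _) (by
        intro z hz
        rw [tr_apply]
        apply hφO
        intro hzO
        apply hz
        rw [hO1, Set.mem_iInter₂] at hzO
        have h3 : z + -((h + sH h) • G.α) + h • G.α + sH h • G.α - zs ∈ V := hzO h hhH
        have h4 : z + -((h + sH h) • G.α) + h • G.α + sH h • G.α - zs = z - zs := by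
          rw [add_smul]; abel
        rw [h4] at h3
        have h5 := hVV _ h3 0 hV0
        have h6 : zs + (z - zs) + 0 = z := by abel
        rwa [h6] at h5)
      have h3 : ∫ z, (tr (-((h + sH h) • G.α)) φ) z * g (w (sH h)) z ∂G.μ =
          ∫ z, φ z * g (w (sH h)) (z + (h + sH h) • G.α) ∂G.μ := by
        rw [← integral_add_right_eq_self (μ := G.μ)
          (fun z => (tr (-((h + sH h) • G.α)) φ) z * g (w (sH h)) z) ((h + sH h) • G.α)]
        refine integral_congr_ae (Eventually.of_forall fun z => ?_)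
        simp only [tr_apply]
        rw [add_neg_cancel_right]
      rw [h3, ← dens_shift hm (hgd (w (sH h)))] at h2
      have h4 := dens_shift hm hfd h φ
      have h5 : m (pull G.α φ * sh h (ind A)) ≤
          m (pull G.α φ * sh (h + sH h) (ind {n | c n = w (sH h)})) := by
        apply hm.mono
        intro n
        rw [BoundedContinuousFunction.mul_apply, BoundedContinuousFunction.mul_apply, sh_apply,
          sh_apply]
        apply mul_le_mul_of_nonneg_left _ (by rw [pull_apply]; exact hφnn _)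
        by_cases hn : n + h ∈ A
        · have h6 : n + (h + sH h) ∈ {n : ℤ | c n = w (sH h)} := by
            show c (n + (h + sH h)) = w (sH h)
            rw [← add_assoc]
            exact hcw _ (hsH h) _ hn
          rw [ind_mem hn, ind_mem h6]
        · rw [ind_notMem hn]
          exact ind_nonneg _ _
      rw [h4, h2] at h5
      linarith
  -- the integers κ
  set K : Finset ℤ := H.image fun h => h + (τ h : ℤ) with hK
  have hKV : ∀ k ∈ K, (k ^ 2) • G.α ∈ V := by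
    intro k hk
    obtain ⟨h, -, rfl⟩ := Finset.mem_image.1 hk
    exact hτV h
  obtain ⟨cc, hcc1, hcc2⟩ := exists_spaced (fun x => ∀ k ∈ K, ((x + k) ^ 2) • G.α ∈ V) (by
    intro B
    set O : Set (G.Z × G.Z) := ⋂ k ∈ K, {p | p.2 + (2 * k) • p.1 + (k ^ 2) • G.α ∈ V} with hO
    have hOo : IsOpen O := isOpen_biInter_finset fun k _ => by
      have hc : Continuous (fun p : G.Z × G.Z => p.2 + (2 * k) • p.1 + (k ^ 2) • G.α) := by
        fun_prop
      exact hV.preimage hc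
    have hO0 : (0, 0) ∈ O := by
      rw [hO, Set.mem_iInter₂]
      intro k hk
      show (0 : G.Z) + (2 * k) • (0 : G.Z) + (k ^ 2) • G.α ∈ V
      rw [smul_zero, zero_add, zero_add]
      exact hKV k hk
    obtain ⟨N, hN⟩ := hlr O hOo (hl0 O hOo hO0)
    obtain ⟨t, -, ht⟩ := hN B
    refine ⟨B + t, by omega, fun k hk => ?_⟩
    rw [hO, Set.mem_iInter₂] at ht
    have h1 : ((B + t) ^ 2) • G.α + (2 * k) • ((B + t) • G.α) + (k ^ 2) • G.α ∈ V := ht k hk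
    have h2 : ((B + t) ^ 2) • G.α + (2 * k) • ((B + t) • G.α) + (k ^ 2) • G.α =
        ((B + t + k) ^ 2) • G.α := by
      rw [smul_smul, ← add_smul, ← add_smul]
      congr 1
      ring
    rwa [h2] at h1) J K
  let κ : {e : ℤ × ℤ // e ∈ J ×ˢ K} → ℤ := fun e => cc e.1.1 + e.1.2
  have hκ : Function.Injective κ := by
    rintro ⟨⟨h, k⟩, he⟩ ⟨⟨h', k'⟩, he'⟩ heq
    have h1 := Finset.mem_product.1 he
    have h2 := Finset.mem_product.1 he'
    obtain ⟨h3, h4⟩ := hcc2 h h1.1 h' h2.1 k h1.2 k' h2.2 heq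
    subst h3; subst h4; rfl
  have hmem1 : ∀ e : {e : ℤ × ℤ // e ∈ J ×ˢ K}, e.1.1 ∈ J := fun e =>
    (Finset.mem_product.1 e.2).1
  have hmem2 : ∀ e : {e : ℤ × ℤ // e ∈ J ×ˢ K}, e.1.2 ∈ K := fun e =>
    (Finset.mem_product.1 e.2).2
  obtain ⟨O, hO, hlO, ε, hε, hI⟩ := hcl G.Z G.μ G.α G.dense lam hl1
    {e : ℤ × ℤ // e ∈ J ×ˢ K} κ hκ (fun e => (e.1.1 + sH e.1.1) • G.α) Ω hΩ
    (fun e => g (w (sH e.1.1))) (fun e => hgm _) (fun e => hgb _)
    (fun e => hfull _ (hmem1 e)) φ hφnn 0 (0, 0) (by rw [hφz]; exact one_pos)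
    (by
      intro e
      have h1 : e.1.1 • G.α + sH e.1.1 • G.α - zs ∈ V := hsV e.1.1
      have h2 : ((cc e.1.1 + e.1.2) ^ 2) • G.α ∈ V := hcc1 _ (hmem1 e) _ (hmem2 e)
      have h3 := hVV _ h1 _ h2
      have h4 : (0 : G.Z) + (e.1.1 + sH e.1.1) • G.α + (0, (0 : G.Z)).2 +
          (2 * κ e) • ((0 : G.Z), (0 : G.Z)).1 + (κ e ^ 2) • G.α =
          zs + (e.1.1 • G.α + sH e.1.1 • G.α - zs) + ((cc e.1.1 + e.1.2) ^ 2) • G.α := by
        show (0 : G.Z) + (e.1.1 + sH e.1.1) • G.α + 0 +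
          (2 * κ e) • (0 : G.Z) + ((cc e.1.1 + e.1.2) ^ 2) • G.α = _
        rw [smul_zero, add_smul]
        abel
      exact h4 ▸ h3)
    (fun O hO h => hl0 O hO h)
  obtain ⟨N3, hN3⟩ := hlr O hO hlO
  have hN3pos : 0 < N3 := by
    obtain ⟨t, ht, -⟩ := hN3 0
    omega
  exact finish hm hF hnull hgm hgb hμ hfm hfb hfd hvdc hH sH τ J K φ hφnn hφle
    (fun h hh hp => Finset.mem_filter.2 ⟨hh, hp⟩) (fun h hh => Finset.mem_image_of_mem _ hh) cc κ
    (fun _ => rfl) O ε hε hI N3 hN3pos hN3 N0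
    (fun n hn hn0 h _ h' _ => hcon n hn hn0 (sH h) (hsH h) (τ h') (hτ h'))

end Pool.Agent.W634.BQ
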